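import Mathlib

set_option autoImplicit false

/-! One-parameter groups of endomorphisms of finite dimensional complex vector spaces. -/

namespace Pool.Agent.Helper98.Ball

open Module

section exp

variable {V : Type} [NormedAddCommGroup V] [NormedSpace ℂ V] [FiniteDimensional ℂ V]

/-- the exponential of a multiple of an endomorphism -/
noncomputable def ex (A : Module.End ℂ V) (t : ℂ) : Module.End ℂ V :=
  ((NormedSpace.exp (t • LinearMap.toContinuousLinearMap A) : V →L[ℂ] V) : V →ₗ[ℂ] V)

lemma ex_zero (A : Module.End ℂ V) (v : V) : ex A 0 v = v := by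
  rw [ex, zero_smul, NormedSpace.exp_zero]
  rfl

lemma ex_deriv (A : Module.End ℂ V) (v : V) (t : ℂ) :
    HasDerivAt (fun t => ex A t v) (A (ex A t v)) t := by
  have : CompleteSpace V := FiniteDimensional.complete ℂ V
  have h1 := hasDerivAt_exp_smul_const' (𝕂 := ℂ) (LinearMap.toContinuousLinearMap A) t
  have h2 := h1.clm_apply (hasDerivAt_const t v)
  simpa [ex] using h2

/-- real linear intertwiners of two endomorphisms are intertwiners of the real one-parameter
groups -/
lemma ex_comm {W : Type} [NormedAddCommGroup W] [NormedSpace ℂ W] [FiniteDimensional ℂ W]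
    (A : Module.End ℂ V) (B : Module.End ℂ W) (f : V →L[ℝ] W) (h : ∀ v, f (A v) = B (f v))
    (t : ℝ) (v : V) : f (ex A t v) = ex B t (f v) := by
  have hB : LipschitzWith ‖LinearMap.toContinuousLinearMap B‖₊ (fun w => B w) :=
    (LinearMap.toContinuousLinearMap B).lipschitz
  have d1 : ∀ t : ℝ, HasDerivAt (fun t : ℝ => ex A (t : ℂ) v) (A (ex A (t : ℂ) v)) t := by
    intro t
    have h1 := (ex_deriv A v (t : ℂ)).scomp t (Complex.ofRealCLM.hasDerivAt (x := t))
    simpa [Function.comp_def] using h1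
  have d2 : ∀ t : ℝ, HasDerivAt (fun t : ℝ => ex B (t : ℂ) (f v)) (B (ex B (t : ℂ) (f v))) t := by
    intro t
    have h1 := (ex_deriv B (f v) (t : ℂ)).scomp t (Complex.ofRealCLM.hasDerivAt (x := t))
    simpa [Function.comp_def] using h1
  have d3 : ∀ t : ℝ, HasDerivAt (fun t : ℝ => f (ex A (t : ℂ) v)) (B (f (ex A (t : ℂ) v))) t := by
    intro t
    rw [← h]
    exact f.hasFDerivAt.comp_hasDerivAt t (d1 t)
  have key := ODE_solution_unique_univ (v := fun _ w => B w) (s := fun _ => Set.univ)
    (K := ‖LinearMap.toContinuousLinearMap B‖₊) (t₀ := 0) (f := fun t : ℝ => f (ex A (t : ℂ) v))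
    (g := fun t : ℝ => ex B (t : ℂ) (f v)) (fun _ => hB.lipschitzOnWith)
    (fun t => ⟨d3 t, Set.mem_univ _⟩) (fun t => ⟨d2 t, Set.mem_univ _⟩) (by
      simp [ex_zero])
  exact congrFun key t

/-- a closed subspace stable under the real one-parameter group is stable under the generator -/
lemma stable_of_ex (A : Module.End ℂ V) (W : Submodule ℂ V)
    (h : ∀ (t : ℝ), ∀ v ∈ W, ex A t v ∈ W) : ∀ v ∈ W, A v ∈ W := by
  intro v hv
  have h1 := (ex_deriv A v ((0 : ℝ) : ℂ)).scomp (0 : ℝ) (Complex.ofRealCLM.hasDerivAt (x := (0 : ℝ)))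
  have h2 : HasDerivAt (fun t : ℝ => ex A (t : ℂ) v) (A v) 0 := by
    simpa [Function.comp_def, ex_zero] using h1
  have hc : IsClosed (W : Set V) := W.closed_of_finiteDimensional
  have h3 := h2.tendsto_slope
  refine hc.mem_of_tendsto h3 (Filter.Eventually.of_forall fun t => ?_)
  rw [slope_def_module]
  have h4 : ex A ((t : ℝ) : ℂ) v - ex A ((0 : ℝ) : ℂ) v ∈ W := W.sub_mem (h t v hv) (h 0 v hv)
  have h5 : (t - 0)⁻¹ • (ex A ((t : ℝ) : ℂ) v - ex A ((0 : ℝ) : ℂ) v) =
      (((t - 0)⁻¹ : ℝ) : ℂ) • (ex A ((t : ℝ) : ℂ) v - ex A ((0 : ℝ) : ℂ) v) := by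
    rw [Complex.coe_smul]
  rw [h5]
  exact W.smul_mem _ h4

end exp

section ml

variable {V : Type} [NormedAddCommGroup V] [NormedSpace ℂ V] [FiniteDimensional ℂ V] {p : ℕ}

lemma ml_continuous (α : MultilinearMap ℂ (fun _ : Fin p => V) ℂ) : Continuous α := by
  classical
  let b := Module.finBasis ℂ V
  have h1 : (α : (Fin p → V) → ℂ) = fun v => ∑ s : Fin p → Fin (Module.finrank ℂ V),
      (∏ r, b.coord (s r) (v r)) • α (fun r => b (s r)) := by
    funext v
    have h2 : v = fun r => ∑ q, b.repr (v r) q • b q := by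
      funext r
      exact (b.sum_repr (v r)).symm
    conv_lhs => rw [h2]
    rw [MultilinearMap.map_sum]
    refine Finset.sum_congr rfl fun s _ => ?_
    rw [MultilinearMap.map_smul_univ]
    rfl
  rw [h1]
  refine continuous_finsetSum _ fun s _ => ?_
  have h3 : ∀ r : Fin p, Continuous (fun v : Fin p → V => b.coord (s r) (v r)) := fun r =>
    (LinearMap.continuous_of_finiteDimensional (b.coord (s r))).comp (continuous_apply r)
  exact (continuous_finsetProd _ fun r _ => h3 r).smul continuous_const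

lemma ml_hasDerivAt (α : MultilinearMap ℂ (fun _ : Fin p => V) ℂ) (y : Fin p → ℂ → V)
    (y' : Fin p → V) (t : ℂ) (h : ∀ r, HasDerivAt (y r) (y' r) t) :
    HasDerivAt (fun t => α (fun r => y r t))
      (∑ r, α (Function.update (fun j => y j t) r (y' r))) t := by
  classical
  let f : ContinuousMultilinearMap ℂ (fun _ : Fin p => V) ℂ := ⟨α, ml_continuous α⟩
  have h1 := HasFDerivAt.multilinear_comp (f := f) (g := fun r => y r)
    (g' := fun r => ContinuousLinearMap.toSpanSingleton ℂ (y' r)) (x := t)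
    (fun r => (h r).hasFDerivAt)
  have h2 := h1.hasDerivAt
  have h3 : HasDerivAt (fun t => α (fun r => y r t)) _ t := h2
  refine h3.congr_deriv ?_
  rw [_root_.sum_apply]
  refine Finset.sum_congr rfl fun r _ => ?_
  simp only [ContinuousLinearMap.comp_apply, ContinuousLinearMap.toSpanSingleton_apply, one_smul]
  rfl

/-- invariance of a multilinear form under a one-parameter group -/
lemma ml_ex (α : MultilinearMap ℂ (fun _ : Fin p => V) ℂ) (A : Module.End ℂ V)
    (h : ∀ v : Fin p → V, ∑ r, α (Function.update v r (A (v r))) = 0) (t : ℂ) (v : Fin p → V) :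
    α (fun r => ex A t (v r)) = α v := by
  have hd : ∀ t : ℂ, HasDerivAt (fun t => α (fun r => ex A t (v r))) 0 t := by
    intro t
    have h1 := ml_hasDerivAt α (fun r t => ex A t (v r)) (fun r => A (ex A t (v r))) t
      (fun r => ex_deriv A (v r) t)
    rw [h] at h1
    exact h1
  have h2 := is_const_of_deriv_eq_zero (fun t => (hd t).differentiableAt)
    (fun t => (hd t).deriv) t 0
  simp only [ex_zero] at h2
  exact h2

end ml

end Pool.Agent.Helper98.Ball
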