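import Pool.Agent.Helper8.B.Defs
import Pool.Agent.Helper28.GPC.TwistU
import Pool.Agent.Helper98.Ball.Exp

set_option autoImplicit false

/-! The real symmetries of a class act irreducibly on the eigenspaces of the field. -/

namespace Pool.Agent.Helper98.Ball

open Module Pool.Agent.Helper7 Pool.Agent.Ball Pool.Agent.Helper28.GPC
open scoped ComplexConjugate

section single

variable {κ : Type} [Fintype κ] [DecidableEq κ] {ϖ : ℂ} (P : PData κ ϖ)

/-- complex conjugation for the Betti structure, as a continuous real linear map -/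
noncomputable def cBL : (κ → ℂ) →L[ℝ] (κ → ℂ) :=
  LinearMap.toContinuousLinearMap
    { toFun := cB P
      map_add' := cB_add P
      map_smul' := fun r v => by
        have h := cB_smul P (r : ℂ) v
        rw [Complex.conj_ofReal, Complex.coe_smul, Complex.coe_smul] at h
        exact h }

lemma cBL_apply (v : κ → ℂ) : cBL P v = cB P v := rfl

end single

section family

variable {I : Type} [Fintype I] [DecidableEq I] (n : I → ℕ)
  {κ : I → Type} [∀ i, Fintype (κ i)] [∀ i, DecidableEq (κ i)] {ϖ : ℂ}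
  (P : ∀ i, PData (κ i) ϖ)
  {k : ℕ} (α : MultilinearMap ℂ (fun _ : Fin (2 * k) => HW κ n) ℂ)

omit [DecidableEq I] [∀ i, DecidableEq (κ i)] in
lemma lift_ex (X : (i : I) → Module.End ℂ (κ i → ℂ)) (t : ℝ) (w : HW κ n) :
    lift n (fun i => ex (X i) t) w = ex (lift n X) t w := by
  funext i m
  rw [lift_apply]
  let f : HW κ n →ₗ[ℂ] (κ i → ℂ) :=
    { toFun := fun v => v i m
      map_add' := fun _ _ => rfl
      map_smul' := fun _ _ => rfl }
  exact (ex_comm (lift n X) (X i) ((LinearMap.toContinuousLinearMap f).restrictScalars ℝ)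
    (fun v => rfl) t w).symm

lemma isGrp_ex (X : GG κ) (hX : IsInv n P α X) (h2 : X.2 = 0)
    (hr : ∀ i v, X.1 i (cB (P i) v) = cB (P i) (X.1 i v)) (t : ℝ) :
    IsGrp n P α (fun i => ex (X.1 i) t) where
  comm i j f hf v := (ex_comm (X.1 i) (X.1 j)
    ((LinearMap.toContinuousLinearMap f).restrictScalars ℝ)
    (fun v => (hX.comm i j f hf v).symm) t v).symm
  pol i u v := by
    let β : MultilinearMap ℂ (fun _ : Fin 2 => (κ i → ℂ)) ℂ :=
      { toFun := fun w => (P i).ψ (w 0) (w 1)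
        map_update_add' := by
          intro inst w r x y
          have hinst : inst = instDecidableEqFin 2 := Subsingleton.elim _ _
          subst hinst
          fin_cases r <;> simp [Function.update]
        map_update_smul' := by
          intro inst w r c x
          have hinst : inst = instDecidableEqFin 2 := Subsingleton.elim _ _
          subst hinst
          fin_cases r <;> simp [Function.update] }
    have h1 := ml_ex β (X.1 i) (fun w => by
      rw [Fin.sum_univ_two]
      have h3 := hX.pol i (w 0) (w 1)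
      rw [h2, zero_mul] at h3
      rw [← h3]
      show (P i).ψ _ _ + (P i).ψ _ _ = _
      simp [Function.update]) t ![u, v]
    exact h1
  form v := by
    have h1 : (fun r => lift n (fun i => ex (X.1 i) t) (v r)) =
        fun r => ex (lift n X.1) t (v r) := by
      funext r
      exact lift_ex n X.1 t (v r)
    rw [h1]
    refine ml_ex α (lift n X.1) (fun w => ?_) t v
    rw [← actForm_apply, hX.form, h2, mul_zero, zero_smul]
    rfl
  real i v := (ex_comm (X.1 i) (X.1 i) (cBL (P i)) (fun v => (hr i v).symm) t v).symm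

omit [Fintype I] [DecidableEq I] in
/-- the homotheties are symmetries -/
lemma isInv_homothety : IsInv n P α ((fun _ => (1 / 2 : ℂ) • (1 : Module.End ℂ _), 1) : GG κ) where
  comm i j f _ v := by
    show (1 / 2 : ℂ) • f v = f ((1 / 2 : ℂ) • v)
    rw [map_smul]
  pol i u v := by
    show (P i).ψ ((1 / 2 : ℂ) • u) v + (P i).ψ u ((1 / 2 : ℂ) • v) = 1 * (P i).ψ u v
    rw [map_smul, LinearMap.smul_apply, map_smul, smul_eq_mul]
    ring
  form := by
    apply MultilinearMap.ext
    intro v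
    rw [actForm_apply]
    have h1 : ∀ r, α (Function.update v r (lift n
        (fun i => (1 / 2 : ℂ) • (1 : Module.End ℂ (κ i → ℂ))) (v r))) = (1 / 2 : ℂ) * α v := by
      intro r
      have h2 : lift n (fun i => (1 / 2 : ℂ) • (1 : Module.End ℂ (κ i → ℂ))) (v r) =
          (1 / 2 : ℂ) • v r := rfl
      rw [h2, MultilinearMap.map_update_smul, Function.update_eq_self, smul_eq_mul]
    show ∑ r, α (Function.update v r (lift n
        (fun i => (1 / 2 : ℂ) • (1 : Module.End ℂ (κ i → ℂ))) (v r))) = ((k * 1 : ℂ) • α) v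
    rw [Finset.sum_congr rfl fun r _ => h1 r, Finset.sum_const, Finset.card_univ, Fintype.card_fin,
      _root_.smul_apply, smul_eq_mul, nsmul_eq_mul]
    push_cast
    ring

variable (i : I) {K : Type} [Field K] [NumberField K] {r : ℕ} (F : UF (P i) K r)
  (hϖ : ϖ ≠ 0)
  (hB : ∀ v : Fin (2 * k) → HW κ n, (∀ r, IsRatP n P (v r)) → ∃ q : ℚ, α v = ϖ ^ k * q)
  (hA : ∀ v : Fin (2 * k) → HW κ n, (∀ r i m j, IsAlgebraic ℚ (v r i m j)) →
      IsAlgebraic ℚ (α v))

include hϖ hB hA in
/-- M2.  The real symmetries act irreducibly on the eigenspaces. -/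
theorem M2 (σ : K →+* ℂ) (W : Submodule ℂ (κ i → ℂ))
    (hW : W ≤ Submodule.span ℂ (Set.range (F.e σ)))
    (hst : ∀ g, IsGrp n P α g → ∀ v ∈ W, g i v ∈ W) :
    W = ⊥ ∨ W = Submodule.span ℂ (Set.range (F.e σ)) := by
  refine UF.irred_place n P α i F hϖ hB hA σ W hW ?_
  have hreal : ∀ Y : GG κ, IsInv n P α Y → Y.2 = 0 →
      (∀ i v, Y.1 i (cB (P i) v) = cB (P i) (Y.1 i v)) → ∀ v ∈ W, Y.1 i v ∈ W := by
    intro Y hY hY2 hYr
    exact stable_of_ex (Y.1 i) W fun t v hv => hst _ (isGrp_ex n P α Y hY hY2 hYr t) v hv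
  intro X hX v hv
  obtain ⟨X0, hX0⟩ : ∃ X0 : GG κ, X0 = X + (-X.2) •
    ((fun _ => (1 / 2 : ℂ) • (1 : Module.End ℂ _), 1) : GG κ) := ⟨_, rfl⟩
  have hX0i : IsInv n P α X0 := by
    rw [hX0]
    exact hX.add n P α ((isInv_homothety n P α).smul n P α _)
  have hX02 : X0.2 = 0 := by
    rw [hX0]
    show X.2 + (-X.2) * 1 = 0
    ring
  have hX01 : ∀ w, X.1 i w = X0.1 i w + (X.2 / 2) • w := by
    intro w
    rw [hX0]
    show _ = X.1 i w + (-X.2) • ((1 / 2 : ℂ) • w) + (X.2 / 2) • w
    rw [smul_smul, add_assoc, ← add_smul]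
    have : -X.2 * (1 / 2) + X.2 / 2 = 0 := by ring
    rw [this, zero_smul, add_zero]
  obtain ⟨X', hX', hX'2, -, hX'c⟩ := exists_real n P α hϖ hB X0 hX0i
  rw [hX02, map_zero] at hX'2
  have h1 := hreal ((1 / 2 : ℂ) • (X0 + X')) ((hX0i.add n P α hX').smul n P α _) (by
      show (1 / 2 : ℂ) * (X0.2 + X'.2) = 0
      rw [hX02, hX'2]; ring) (fun j w => by
      show (1 / 2 : ℂ) • (X0.1 j (cB (P j) w) + X'.1 j (cB (P j) w)) =
        cB (P j) ((1 / 2 : ℂ) • (X0.1 j w + X'.1 j w))
      have e : conj (1 / 2 : ℂ) = 1 / 2 := by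
        rw [map_div₀, map_one, map_ofNat]
      rw [hX'c, hX'c, cB_smul, cB_add, cB_cB, cB_cB, add_comm, e]) v hv
  have h2 := hreal ((-Complex.I / 2 : ℂ) • (X0 + (-1 : ℂ) • X'))
    ((hX0i.add n P α (hX'.smul n P α _)).smul n P α _) (by
      show (-Complex.I / 2 : ℂ) * (X0.2 + (-1 : ℂ) * X'.2) = 0
      rw [hX02, hX'2]; ring) (fun j w => by
      show (-Complex.I / 2 : ℂ) • (X0.1 j (cB (P j) w) + (-1 : ℂ) • X'.1 j (cB (P j) w)) =
        cB (P j) ((-Complex.I / 2 : ℂ) • (X0.1 j w + (-1 : ℂ) • X'.1 j w))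
      rw [hX'c, hX'c, cB_smul, cB_add, cB_smul, cB_cB, cB_cB]
      have e : conj (-Complex.I / 2 : ℂ) = Complex.I / 2 := by
        rw [map_div₀, map_neg, Complex.conj_I, neg_neg, map_ofNat]
      rw [e, map_neg, map_one, smul_add, smul_add, smul_smul, smul_smul, add_comm]
      congr 1
      · congr 1; ring
      · congr 1; ring) v hv
  rw [hX01]
  refine W.add_mem ?_ (W.smul_mem _ hv)
  have h3 : X0.1 i v = ((1 / 2 : ℂ) • (X0 + X')).1 i v +
      Complex.I • ((-Complex.I / 2 : ℂ) • (X0 + (-1 : ℂ) • X')).1 i v := by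
    show _ = (1 / 2 : ℂ) • (X0.1 i v + X'.1 i v) +
      Complex.I • ((-Complex.I / 2 : ℂ) • (X0.1 i v + (-1 : ℂ) • X'.1 i v))
    rw [smul_smul]
    have e : Complex.I * (-Complex.I / 2) = 1 / 2 := by
      linear_combination (-1 / 2 : ℂ) * Complex.I_sq
    rw [e, ← smul_add]
    have e2 : X0.1 i v + X'.1 i v + (X0.1 i v + (-1 : ℂ) • X'.1 i v) = (2 : ℂ) • X0.1 i v := by
      rw [neg_one_smul, two_smul]; abel
    rw [e2, smul_smul]
    norm_num
  rw [h3]
  exact W.add_mem h1 (W.smul_mem _ h2)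

end family

end Pool.Agent.Helper98.Ball
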